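import Pool.Agent.helper3.FS.SpecE

/-!
# Row fse:PAK: packing
-/

set_option autoImplicit false

open Complex Metric Set Filter Topology MeasureTheory
open HY (UD T S hd UN RM)
open RT

noncomputable section

namespace FSE

/-- PAK: a separated family in a smaller disc is finite. -/
theorem PAK (hCEL : P2A.CEL_stmt) : PAK_stmt := by
  classical
  intro ε ρ hε hρ
  obtain ⟨C, hC, h⟩ := hCEL
  have hβ : 0 < min (1 - ρ) 1 := lt_min (by linarith) one_pos
  have hη : 0 < min (ε / 2) (1 / 2) := lt_min (by linarith) (by norm_num)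
  refine ⟨C / (min (1 - ρ) 1 * min (ε / 2) (1 / 2)) ^ 2, by positivity, ?_⟩
  intro E hE hsep
  set n := E.card with hn
  let y : ℕ → ℂ := fun i => if hi : i < E.card then ((E.equivFin.symm ⟨i, hi⟩ : E) : ℂ) else 0
  have hy : ∀ i (hi : i < E.card), y i = ((E.equivFin.symm ⟨i, hi⟩ : E) : ℂ) := by
    intro i hi
    simp only [y, dif_pos hi]
  have hyE : ∀ i, i < E.card → y i ∈ E := by
    intro i hi
    rw [hy i hi]
    exact (E.equivFin.symm ⟨i, hi⟩).2
  have hyinj : ∀ i l, i < E.card → l < E.card → y i = y l → i = l := by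
    intro i l hi hl he
    rw [hy i hi, hy l hl] at he
    have h1 := E.equivFin.symm.injective (Subtype.ext he)
    exact congrArg Fin.val h1
  obtain ⟨N, κ, hN, hκ, hcell⟩ := h (min (1 - ρ) 1) (min (ε / 2) (1 / 2)) hβ (min_le_right _ _) hη
    ((min_le_right _ _).trans (by norm_num)) y (Finset.range E.card) (by
      intro i hi
      have h1 := hE (y i) (hyE i (Finset.mem_range.mp hi))
      refine ⟨?_, ?_⟩
      · show y i ∈ ball (0 : ℂ) 1
        rw [mem_ball, dist_zero_right]
        linarith
      · exact (min_le_left _ _).trans (by linarith))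
  have hinj : Set.InjOn κ (Finset.range E.card : Set ℕ) := by
    intro i hi l hl he
    have hi' : i < E.card := Finset.mem_range.mp (Finset.mem_coe.mp hi)
    have hl' : l < E.card := Finset.mem_range.mp (Finset.mem_coe.mp hl)
    by_contra hne
    have h1 := hcell i (Finset.mem_range.mpr hi') l (Finset.mem_range.mpr hl') he
    have h2 := hsep (y i) (hyE i hi') (y l) (hyE l hl') (fun hh => hne (hyinj i l hi' hl' hh))
    have h3 : ‖T (y i) (y l)‖ ≤ ε / 2 := h1.trans (min_le_left _ _)
    linarith
  have hcard : (Finset.range E.card).card ≤ (Finset.range N).card :=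
    Finset.card_le_card_of_injOn κ (fun i hi => Finset.mem_coe.mpr (Finset.mem_range.mpr (hκ i hi))) hinj
  rw [Finset.card_range, Finset.card_range] at hcard
  have : (E.card : ℝ) ≤ (N : ℝ) := by exact_mod_cast hcard
  linarith

end FSE
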